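import Pool.Agent.Helper67.KSZ.KTest

/-!
# NX-8, part B: derivatives of sums of powers
-/

set_option autoImplicit false

open Finset

namespace Pool.Agent.Helper59.NX

open Pool.Agent.Helper67.KSZ (dk dk_succ)

/-- Falling factorials. -/
noncomputable def ff (γ : ℝ) (j : ℕ) : ℝ := ∏ r ∈ range j, (γ - r)

theorem ff_succ (γ : ℝ) (j : ℕ) : ff γ (j + 1) = ff γ j * (γ - j) := prod_range_succ _ _

theorem ff_ne_zero {γ : ℝ} (h : ∀ n : ℕ, γ ≠ n) (j : ℕ) : ff γ j ≠ 0 :=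
  prod_ne_zero_iff.mpr fun r _ => sub_ne_zero.mpr (h r)

theorem ff_add (γ : ℝ) (K l : ℕ) :
    ff γ (K + l) = ff γ K * (descPochhammer ℝ l).eval (γ - K) := by
  unfold ff
  rw [prod_range_add, descPochhammer_eval_eq_prod_range]
  congr 1
  apply prod_congr rfl
  intro r _
  push_cast
  ring

/-- The matrix of the falling factorials is invertible. -/
theorem lin_lower {m : ℕ} (hm : 0 < m) (γ : Fin m → ℝ) (hinj : Function.Injective γ)
    (hγ : ∀ i (n : ℕ), γ i ≠ n) (K : ℕ) : ∃ c : ℝ, 0 < c ∧ ∀ w : Fin m → ℝ,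
      ∃ l : Fin m, c * ‖w‖ ≤ |∑ i, ff (γ i) (K + l) * w i| := by
  classical
  set M : Matrix (Fin m) (Fin m) ℝ := Matrix.of fun l i => ff (γ i) (K + l) with hM
  have hker : ∀ w : Fin m → ℝ, M.mulVec w = 0 → w = 0 := by
    intro w hw
    have hdet : (Matrix.of fun (i j : Fin m) =>
        ((descPochhammer ℝ j).eval (γ i - K))).det ≠ 0 := by
      rw [← Matrix.det_eval_matrixOfPolynomials_eq_det_vandermonde (fun i => γ i - K)
        (fun j : Fin m => descPochhammer ℝ j) (fun i => descPochhammer_natDegree _ _)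
        (fun i => monic_descPochhammer ℝ _)]
      rw [Matrix.det_vandermonde_ne_zero_iff]
      intro i j h
      exact hinj (by simpa using h)
    rw [← Matrix.det_transpose] at hdet
    have h1 := Matrix.eq_zero_of_mulVec_eq_zero hdet (v := fun i => ff (γ i) K * w i) (by
      funext l
      have h2 := congrFun hw l
      simp only [Matrix.mulVec, dotProduct, hM, Matrix.of_apply, Pi.zero_apply,
        Matrix.transpose_apply] at h2 ⊢
      rw [← h2]
      apply sum_congr rfl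
      intro i _
      rw [ff_add]
      ring)
    funext i
    have h3 := congrFun h1 i
    simp only [Pi.zero_apply, mul_eq_zero] at h3
    exact h3.resolve_left (ff_ne_zero (hγ i) K)
  obtain ⟨C, hC, hA⟩ := LinearMap.exists_antilipschitzWith (Matrix.mulVecLin M) (by
    rw [LinearMap.ker_eq_bot']
    intro w hw
    exact hker w (by simpa using hw))
  have hC' : (0 : ℝ) < C := by exact_mod_cast hC
  refine ⟨1 / (2 * C), by positivity, fun w => ?_⟩
  rcases eq_or_ne w 0 with h0 | h0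
  · refine ⟨⟨0, hm⟩, ?_⟩
    rw [h0, norm_zero, mul_zero]
    exact abs_nonneg _
  · by_contra hcon
    push Not at hcon
    have hw : 0 < ‖w‖ := norm_pos_iff.mpr h0
    have h1 : ‖M.mulVec w‖ < 1 / (2 * C) * ‖w‖ := by
      rw [pi_norm_lt_iff (by positivity)]
      intro l
      rw [Real.norm_eq_abs]
      exact hcon l
    have h2 := hA.le_mul_dist w 0
    rw [dist_zero_right, map_zero, dist_zero_right, Matrix.mulVecLin_apply] at h2
    have h3 : (C : ℝ) * ‖M.mulVec w‖ < C * (1 / (2 * C) * ‖w‖) := mul_lt_mul_of_pos_left h1 hC'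
    have h4 : (C : ℝ) * (1 / (2 * C) * ‖w‖) = ‖w‖ / 2 := by field_simp
    linarith

/-- The derivatives of `∑ v_i t^γ_i`. -/
noncomputable def Phi {m : ℕ} (γ v : Fin m → ℝ) (j : ℕ) (t : ℝ) : ℝ :=
  ∑ i, v i * ff (γ i) j * t ^ (γ i - j)

theorem Phi_zero {m : ℕ} (γ v : Fin m → ℝ) (t : ℝ) : Phi γ v 0 t = ∑ i, v i * t ^ (γ i) := by
  unfold Phi ff
  simp

theorem Phi_hasDerivAt {m : ℕ} (γ v : Fin m → ℝ) (j : ℕ) {t : ℝ} (ht : 0 < t) :
    HasDerivAt (Phi γ v j) (Phi γ v (j + 1) t) t := by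
  unfold Phi
  have h : ∀ i ∈ (univ : Finset (Fin m)), HasDerivAt (fun t : ℝ => v i * ff (γ i) j * t ^ (γ i - j))
      (v i * ff (γ i) (j + 1) * t ^ (γ i - ((j + 1 : ℕ) : ℝ))) t := by
    intro i _
    have h1 := (Real.hasDerivAt_rpow_const (x := t) (p := γ i - j) (Or.inl ht.ne')).const_mul
      (v i * ff (γ i) j)
    have e : v i * ff (γ i) (j + 1) * t ^ (γ i - ((j + 1 : ℕ) : ℝ)) =
        v i * ff (γ i) j * ((γ i - j) * t ^ (γ i - j - 1)) := by
      rw [ff_succ]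
      push_cast
      rw [show γ i - ((j : ℝ) + 1) = γ i - j - 1 by ring]
      ring
    rw [e]
    exact h1
  have := HasDerivAt.fun_sum h
  exact this

theorem rpow_bounds {L t : ℝ} (h1 : 1 ≤ t) (h2 : t ≤ L) {g G : ℝ} (hg : |g| ≤ G) :
    L ^ (-G) ≤ t ^ g ∧ t ^ g ≤ L ^ G := by
  have hG : 0 ≤ G := (abs_nonneg g).trans hg
  have hL : 1 ≤ L := h1.trans h2
  constructor
  · calc L ^ (-G) ≤ t ^ (-G) := Real.rpow_le_rpow_of_nonpos (by linarith) h2 (by linarith)
      _ ≤ t ^ g := Real.rpow_le_rpow_of_exponent_le h1 (by linarith [neg_abs_le g])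
  · calc t ^ g ≤ t ^ G := Real.rpow_le_rpow_of_exponent_le h1 ((le_abs_self g).trans hg)
      _ ≤ L ^ G := Real.rpow_le_rpow (by linarith) h2 hG

/-- Bounds for the derivatives. -/
theorem Phi_bounds {m : ℕ} (hm : 0 < m) (γ : Fin m → ℝ) (hinj : Function.Injective γ)
    (hγ : ∀ i (n : ℕ), γ i ≠ n) (K : ℕ) (L : ℝ) (hL : 1 ≤ L) :
    ∃ c C : ℝ, 0 < c ∧ c ≤ 1 ∧ 1 ≤ C ∧ ∀ v : Fin m → ℝ, ∀ t : ℝ, 1 ≤ t → t ≤ L →
      (∃ l : Fin m, c * ‖v‖ ≤ |Phi γ v (K + l) t|) ∧
      ∀ j ≤ K + m, |Phi γ v j t| ≤ C * ‖v‖ := by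
  obtain ⟨c1, hc1, h1⟩ := lin_lower hm γ hinj hγ K
  have hL0 : 0 < L := by linarith
  have hg : ∀ i, |γ i| ≤ ‖γ‖ := fun i => norm_le_pi_norm γ i
  set c2 : ℝ := c1 * L ^ (-‖γ‖) * L ^ (-((K + m : ℕ) : ℝ)) with hc2
  have hc2' : 0 < c2 := by
    rw [hc2]
    have := Real.rpow_pos_of_pos hL0 (-‖γ‖)
    have := Real.rpow_pos_of_pos hL0 (-((K + m : ℕ) : ℝ))
    positivity
  set C1 : ℝ := L ^ ‖γ‖ * ∑ j ∈ range (K + m + 1), ∑ i, |ff (γ i) j| with hC1
  refine ⟨min c2 1, max C1 1, lt_min hc2' one_pos, min_le_right _ _, le_max_right _ _,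
    fun v t ht htL => ⟨?_, ?_⟩⟩
  · have ht0 : 0 < t := by linarith
    obtain ⟨l, hl⟩ := h1 (fun i => v i * t ^ (γ i))
    refine ⟨l, ?_⟩
    have e : Phi γ v (K + l) t =
        t ^ (-((K + l : ℕ) : ℝ)) * ∑ i, ff (γ i) (K + l) * (v i * t ^ (γ i)) := by
      unfold Phi
      rw [mul_sum]
      apply sum_congr rfl
      intro i _
      rw [sub_eq_add_neg, Real.rpow_add ht0]
      ring
    rw [e, abs_mul, abs_of_pos (Real.rpow_pos_of_pos ht0 _)]
    have e1 : L ^ (-((K + m : ℕ) : ℝ)) ≤ t ^ (-((K + l : ℕ) : ℝ)) := by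
      refine (rpow_bounds ht htL ?_).1
      rw [abs_neg, abs_of_nonneg (by positivity)]
      exact_mod_cast Nat.add_le_add_left l.2.le K
    have e2 : L ^ (-‖γ‖) * ‖v‖ ≤ ‖(fun i => v i * t ^ (γ i) : Fin m → ℝ)‖ := by
      rw [← le_div_iff₀' (Real.rpow_pos_of_pos hL0 _), pi_norm_le_iff_of_nonneg
        (div_nonneg (norm_nonneg _) (Real.rpow_pos_of_pos hL0 _).le)]
      intro i
      rw [le_div_iff₀' (Real.rpow_pos_of_pos hL0 _)]
      refine le_trans ?_ (norm_le_pi_norm (fun i => v i * t ^ (γ i) : Fin m → ℝ) i)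
      rw [norm_mul, Real.norm_eq_abs (t ^ γ i), abs_of_pos (Real.rpow_pos_of_pos ht0 _), mul_comm]
      exact mul_le_mul_of_nonneg_left (rpow_bounds ht htL (hg i)).1 (norm_nonneg _)
    calc min c2 1 * ‖v‖ ≤ c2 * ‖v‖ := mul_le_mul_of_nonneg_right (min_le_left _ _) (norm_nonneg _)
      _ = L ^ (-((K + m : ℕ) : ℝ)) * (c1 * (L ^ (-‖γ‖) * ‖v‖)) := by rw [hc2]; ring
      _ ≤ L ^ (-((K + m : ℕ) : ℝ)) * (c1 * ‖(fun i => v i * t ^ (γ i) : Fin m → ℝ)‖) := by
          have := Real.rpow_pos_of_pos hL0 (-((K + m : ℕ) : ℝ))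
          gcongr
      _ ≤ t ^ (-((K + l : ℕ) : ℝ)) * |∑ i, ff (γ i) (K + l) * (v i * t ^ (γ i))| := by
          refine mul_le_mul e1 hl ?_ (Real.rpow_pos_of_pos ht0 _).le
          positivity
  · intro j hj
    have ht0 : 0 < t := by linarith
    unfold Phi
    refine (abs_sum_le_sum_abs _ _).trans ?_
    have e1 : ∀ i ∈ (univ : Finset (Fin m)), |v i * ff (γ i) j * t ^ (γ i - j)| ≤
        ‖v‖ * L ^ ‖γ‖ * |ff (γ i) j| := by
      intro i _
      rw [abs_mul, abs_mul, abs_of_pos (Real.rpow_pos_of_pos ht0 _)]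
      have e2 : t ^ (γ i - j) ≤ L ^ ‖γ‖ := by
        refine le_trans ?_ (rpow_bounds ht htL (hg i)).2
        exact Real.rpow_le_rpow_of_exponent_le ht (by linarith [Nat.cast_nonneg (α := ℝ) j])
      have e3 : |v i| ≤ ‖v‖ := norm_le_pi_norm v i
      calc |v i| * |ff (γ i) j| * t ^ (γ i - j) ≤ ‖v‖ * |ff (γ i) j| * L ^ ‖γ‖ := by
            gcongr
        _ = ‖v‖ * L ^ ‖γ‖ * |ff (γ i) j| := by ring
    refine (sum_le_sum e1).trans ?_
    rw [← mul_sum]
    have e4 : ∑ i, |ff (γ i) j| ≤ ∑ j ∈ range (K + m + 1), ∑ i, |ff (γ i) j| :=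
      single_le_sum (f := fun j => ∑ i, |ff (γ i) j|)
        (fun j _ => sum_nonneg fun i _ => abs_nonneg _) (mem_range.mpr (by omega))
    calc ‖v‖ * L ^ ‖γ‖ * ∑ i, |ff (γ i) j|
        ≤ ‖v‖ * L ^ ‖γ‖ * ∑ j ∈ range (K + m + 1), ∑ i, |ff (γ i) j| := by
          have := Real.rpow_pos_of_pos hL0 ‖γ‖
          gcongr
      _ = C1 * ‖v‖ := by rw [hC1]; ring
      _ ≤ max C1 1 * ‖v‖ := mul_le_mul_of_nonneg_right (le_max_left _ _) (norm_nonneg _)

/-- Iterated differences of functions of a real variable. -/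
def dr : ℕ → (ℝ → ℝ) → ℝ → ℝ
  | 0, g => g
  | j + 1, g => fun x => dr j g (x + 1) - dr j g x

theorem dk_eq_dr (j : ℕ) (g : ℝ → ℝ) (a : ℝ) (n : ℕ) :
    dk j (fun n => g (a + n)) n = dr j g (a + n) := by
  induction j generalizing n with
  | zero => rfl
  | succ j ih =>
    rw [dk_succ, ih, ih]
    show dr j g (a + ((n + 1 : ℕ) : ℝ)) - dr j g (a + n) = dr j g (a + n + 1) - dr j g (a + n)
    push_cast
    rw [add_assoc]

theorem dr_hasDerivAt (j : ℕ) (g g' : ℝ → ℝ) (x : ℝ)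
    (h : ∀ y, x ≤ y → y ≤ x + j → HasDerivAt g (g' y) y) :
    HasDerivAt (dr j g) (dr j g' x) x := by
  induction j generalizing x with
  | zero => exact h x le_rfl (by simp)
  | succ j ih =>
    have h1 := ih (x + 1) (fun y h1 h2 => h y (by linarith) (by push_cast; linarith))
    have h2 := ih x (fun y h1 h2 => h y h1 (by push_cast; linarith))
    have h3 : HasDerivAt (fun x => dr j g (x + 1)) (dr j g' (x + 1)) x := by
      have := h1.comp x ((hasDerivAt_id x).add_const 1)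
      rw [mul_one] at this
      exact this
    exact h3.sub h2

/-- The mean value theorem for iterated differences. -/
theorem dr_mem (j : ℕ) (G : ℕ → ℝ → ℝ) (lo hi a : ℝ)
    (hG : ∀ i, ∀ y, a ≤ y → y ≤ a + j → HasDerivAt (G i) (G (i + 1) y) y)
    (hb : ∀ y, a ≤ y → y ≤ a + j → lo ≤ G j y ∧ G j y ≤ hi) :
    lo ≤ dr j (G 0) a ∧ dr j (G 0) a ≤ hi := by
  induction j generalizing G a with
  | zero => exact hb a le_rfl (by simp)
  | succ j ih =>
    obtain ⟨ξ, hξ, e⟩ := exists_hasDerivAt_eq_slope (dr j (G 0)) (dr j (G 1)) (a := a)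
      (b := a + 1) (by linarith) (by
        intro x hx
        refine (dr_hasDerivAt j (G 0) (G 1) x fun y h1 h2 => hG 0 y ?_ ?_).continuousAt.continuousWithinAt
        · exact hx.1.trans h1
        · have := hx.2
          push_cast; linarith)
      (fun x hx => dr_hasDerivAt j (G 0) (G 1) x fun y h1 h2 => hG 0 y (hx.1.le.trans h1) (by
          have := hx.2
          push_cast; linarith))
    have e' : dr (j + 1) (G 0) a = dr j (G 1) ξ := by
      rw [e]
      show dr j (G 0) (a + 1) - dr j (G 0) a = _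
      rw [add_sub_cancel_left, div_one]
    rw [e']
    refine ih (fun i => G (i + 1)) ξ (fun i y h1 h2 => hG (i + 1) y (hξ.1.le.trans h1) ?_)
      (fun y h1 h2 => hb y (hξ.1.le.trans h1) ?_)
    · have := hξ.2
      push_cast; linarith
    · have := hξ.2
      push_cast; linarith

end Pool.Agent.Helper59.NX
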