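import Pool.Agent.Helper59.NX.WT

/-!
# NX-8, part A: the inductive step of the weak difference test
-/

set_option autoImplicit false

open Finset

namespace Pool.Agent.Helper59.NX

open Pool.Agent.Helper10.QRH (ee)
open Pool.Agent.Helper64.QRH (ee_add norm_ee)
open Pool.Agent.Helper67.KSZ

/-- Counting in the differencing step. -/
theorem sum_split (H : ℕ) (c : ℕ → ℝ) (N U h0 : ℝ) (hU : 0 ≤ U) (hN : 0 ≤ N) (hh0 : 0 ≤ h0)
    (h1 : ∀ x, x < H → c x ≤ N)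
    (h2 : ∀ x, x < H → h0 ≤ ((x + 1 : ℕ) : ℝ) → c x ≤ U) :
    ∑ x ∈ range H, c x ≤ H * U + h0 * N := by
  classical
  have h3 : ∀ x ∈ range H, c x ≤ U + (if ((x + 1 : ℕ) : ℝ) < h0 then N else 0) := by
    intro x hx
    by_cases h : ((x + 1 : ℕ) : ℝ) < h0
    · rw [if_pos h]
      linarith [h1 x (mem_range.1 hx)]
    · rw [if_neg h, add_zero]
      exact h2 x (mem_range.1 hx) (not_lt.mp h)
  refine (sum_le_sum h3).trans ?_
  rw [sum_add_distrib, sum_const, card_range, nsmul_eq_mul, ← sum_filter, sum_const, nsmul_eq_mul]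
  have h4 : ((filter (fun x => ((x + 1 : ℕ) : ℝ) < h0) (range H)).card : ℝ) ≤ h0 := by
    have h5 : filter (fun x => ((x + 1 : ℕ) : ℝ) < h0) (range H) ⊆ range ⌊h0⌋₊ := by
      intro x hx
      rw [mem_filter] at hx
      rw [mem_range]
      have : x + 1 ≤ ⌊h0⌋₊ := Nat.le_floor hx.2.le
      omega
    have h6 := card_le_card h5
    rw [card_range] at h6
    exact (Nat.cast_le.mpr h6).trans (Nat.floor_le hh0)
  have := mul_le_mul_of_nonneg_right h4 hN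
  linarith

theorem wt_succ {j : ℕ} (hj : 2 ≤ j) (h : WT j) : WT (j + 1) := by
  apply wt_of_small
  intro A ε hA hε hε1
  obtain ⟨σ1, hσ1, N1, h1⟩ := h A (ε / 4) hA (by positivity)
  set τ : ℝ := min (ε / 4) (min σ1 1) with hτ
  have hτ0 : 0 < τ := lt_min (by positivity) (lt_min hσ1 one_pos)
  have hτε : τ ≤ ε / 4 := min_le_left _ _
  have hτσ : τ ≤ σ1 := (min_le_right _ _).trans (min_le_left _ _)
  have hτ1 : τ ≤ 1 := (min_le_right _ _).trans (min_le_right _ _)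
  obtain ⟨N2, h21, h2⟩ := exists_pow_ge 4 (τ / 4) (by positivity)
  obtain ⟨N3, h31, h3⟩ := exists_pow_ge (2 ^ j) (ε / 4) (by positivity)
  refine ⟨τ / 4, by positivity, max (2 * N1) (max N2 N3), fun N hN lam hl hu f hf => ?_⟩
  have hNN1 : 2 * N1 ≤ N := (le_max_left _ _).trans hN
  have hNN2 : N2 ≤ N := ((le_max_left _ _).trans (le_max_right _ _)).trans hN
  have hNN3 : N3 ≤ N := ((le_max_right _ _).trans (le_max_right _ _)).trans hN
  have hN1 : (1 : ℝ) ≤ N := by exact_mod_cast h21.trans hNN2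
  have hN0 : (0 : ℝ) < N := by linarith
  have hj2 : (2 : ℝ) ≤ j := by exact_mod_cast hj
  have hpos : ∀ x : ℝ, 0 < (N : ℝ) ^ x := fun x => Real.rpow_pos_of_pos hN0 x
  have hmono : ∀ x y : ℝ, x ≤ y → (N : ℝ) ^ x ≤ (N : ℝ) ^ y := fun x y hxy =>
    Real.rpow_le_rpow_of_exponent_le hN1 hxy
  have hmul : ∀ x y : ℝ, (N : ℝ) ^ x * (N : ℝ) ^ y = (N : ℝ) ^ (x + y) := fun x y =>
    (Real.rpow_add hN0 x y).symm
  have hlam : 0 < lam := lt_of_lt_of_le (hpos _) hl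
  have h2j : (2 : ℝ) ^ j ≤ (N : ℝ) ^ (ε / 4) := h3 N hNN3
  have h22 : (2 : ℝ) ≤ (N : ℝ) ^ (ε / 4) := by
    refine le_trans ?_ h2j
    calc (2 : ℝ) = 2 ^ 1 := by norm_num
      _ ≤ 2 ^ j := pow_le_pow_right₀ (by norm_num) (by omega)
  -- the length of the differencing
  set Hs : ℝ := min ((N : ℝ) ^ (1 - ε / 4)) ((N : ℝ) ^ (-(ε / 2)) / lam) with hHs
  have hHs1 : (N : ℝ) ^ (ε / 2) ≤ Hs := by
    refine le_min (hmono _ _ (by linarith)) ?_
    rw [le_div_iff₀ hlam]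
    calc (N : ℝ) ^ (ε / 2) * lam ≤ (N : ℝ) ^ (ε / 2) * (N : ℝ) ^ (-ε) :=
          mul_le_mul_of_nonneg_left hu (hpos _).le
      _ = (N : ℝ) ^ (-(ε / 2)) := by rw [hmul]; congr 1; ring
  have hHs2 : 2 ≤ Hs := by
    refine le_trans (h22.trans (hmono _ _ (by linarith))) hHs1
  have hHs3 : Hs ≤ N / 2 := by
    refine (min_le_left _ _).trans ?_
    rw [le_div_iff₀ (by norm_num : (0 : ℝ) < 2)]
    calc (N : ℝ) ^ (1 - ε / 4) * 2 ≤ (N : ℝ) ^ (1 - ε / 4) * (N : ℝ) ^ (ε / 4) :=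
          mul_le_mul_of_nonneg_left h22 (hpos _).le
      _ = N := by rw [hmul]; ring_nf; rw [Real.rpow_one]
  have hHsl : Hs * lam ≤ (N : ℝ) ^ (-(ε / 2)) := by
    rw [← le_div_iff₀ hlam]
    exact min_le_right _ _
  have hHsl' : (N : ℝ) ^ (-(j : ℝ) + 3 * ε / 4) ≤ Hs * lam := by
    rw [← div_le_iff₀ hlam]
    refine le_min ?_ ?_
    · rw [div_le_iff₀ hlam]
      calc (N : ℝ) ^ (-(j : ℝ) + 3 * ε / 4)
          = (N : ℝ) ^ (1 - ε / 4) * (N : ℝ) ^ (-((j + 1 : ℕ) : ℝ) + ε) := by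
            rw [hmul]; congr 1; push_cast; ring
        _ ≤ (N : ℝ) ^ (1 - ε / 4) * lam := mul_le_mul_of_nonneg_left hl (hpos _).le
    · exact div_le_div_of_nonneg_right (hmono _ _ (by linarith)) hlam.le
  set H : ℕ := ⌊Hs⌋₊ with hH
  have hHle : (H : ℝ) ≤ Hs := Nat.floor_le (by linarith)
  have hHge : Hs / 2 ≤ H := by
    have := Nat.lt_floor_add_one Hs
    rw [← hH] at this
    linarith
  have hH1 : 1 ≤ H := by
    rw [hH]
    exact Nat.le_floor (by push_cast; linarith)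
  have hHN : H ≤ N := by
    have : (H : ℝ) ≤ N := by linarith
    exact_mod_cast this
  -- correlations
  have hc0 : ∀ r, ‖corr (fun n => ee (f n)) N r‖ ≤ N := by
    intro r
    rw [corr_ee]
    refine (norm_sum_ee_le (N - r) _).trans ?_
    exact_mod_cast Nat.sub_le _ _
  have hc1 : ∀ x, x < H - 1 → Hs * (N : ℝ) ^ (-(ε / 4)) ≤ ((x + 1 : ℕ) : ℝ) →
      ‖corr (fun n => ee (f n)) N (x + 1)‖ ≤ (N : ℝ) ^ (1 - τ) := by
    intro x hx hx'
    rw [corr_ee]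
    set r : ℕ := x + 1 with hr
    have hrH : (r : ℝ) ≤ Hs := by
      refine le_trans ?_ hHle
      exact_mod_cast (by omega : r ≤ H)
    have hrN : 2 * r ≤ N := by
      have : (2 : ℝ) * r ≤ N := by linarith
      exact_mod_cast this
    have hNr : ((N - r : ℕ) : ℝ) = N - r := by
      rw [Nat.cast_sub (by omega)]
    have hNr2 : (N : ℝ) / 2 ≤ ((N - r : ℕ) : ℝ) := by
      rw [hNr]
      have : (2 : ℝ) * r ≤ N := by exact_mod_cast hrN
      linarith
    have hr0 : (0 : ℝ) < r := by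
      rw [hr]; positivity
    have hrpos : (1 : ℝ) ≤ ((N - r : ℕ) : ℝ) := by
      have h1' : 1 ≤ N - r := by omega
      exact_mod_cast h1'
    have hrN' : ((N - r : ℕ) : ℝ) ≤ N := by
      exact_mod_cast Nat.sub_le _ _
    have key := h1 (N - r) (by omega) (r * lam) ?_ ?_ (fun n => f (n + r) - f n) ?_
    · refine key.trans ?_
      refine (Real.rpow_le_rpow_of_exponent_le hrpos (by linarith : 1 - σ1 ≤ 1 - τ)).trans ?_
      exact Real.rpow_le_rpow (by linarith) hrN' (by linarith)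
    · -- lower bound for `r * lam`
      have e1 : ((N - r : ℕ) : ℝ) ^ (-(j : ℝ) + ε / 4) ≤ ((N : ℝ) / 2) ^ (-(j : ℝ) + ε / 4) :=
        Real.rpow_le_rpow_of_nonpos (by linarith) hNr2 (by linarith)
      have e2 : ((N : ℝ) / 2) ^ (-(j : ℝ) + ε / 4) =
          (N : ℝ) ^ (-(j : ℝ) + ε / 4) * (2 : ℝ) ^ ((j : ℝ) - ε / 4) := by
        rw [Real.div_rpow hN0.le (by norm_num), div_eq_mul_inv, ← Real.rpow_neg (by norm_num)]
        congr 2
        ring
      have e3 : (2 : ℝ) ^ ((j : ℝ) - ε / 4) ≤ (2 : ℝ) ^ j := by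
        rw [← Real.rpow_natCast]
        exact Real.rpow_le_rpow_of_exponent_le (by norm_num) (by linarith)
      have e4 : ((N : ℝ) / 2) ^ (-(j : ℝ) + ε / 4) ≤ (N : ℝ) ^ (-(j : ℝ) + ε / 2) := by
        rw [e2]
        calc (N : ℝ) ^ (-(j : ℝ) + ε / 4) * (2 : ℝ) ^ ((j : ℝ) - ε / 4)
            ≤ (N : ℝ) ^ (-(j : ℝ) + ε / 4) * (N : ℝ) ^ (ε / 4) :=
              mul_le_mul_of_nonneg_left (e3.trans h2j) (hpos _).le
          _ = (N : ℝ) ^ (-(j : ℝ) + ε / 2) := by rw [hmul]; congr 1; ring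
      have e5 : (N : ℝ) ^ (-(j : ℝ) + ε / 2) ≤ r * lam := by
        calc (N : ℝ) ^ (-(j : ℝ) + ε / 2)
            = (N : ℝ) ^ (-(j : ℝ) + 3 * ε / 4) * (N : ℝ) ^ (-(ε / 4)) := by
              rw [hmul]; congr 1; ring
          _ ≤ (Hs * lam) * (N : ℝ) ^ (-(ε / 4)) :=
              mul_le_mul_of_nonneg_right hHsl' (hpos _).le
          _ = (Hs * (N : ℝ) ^ (-(ε / 4))) * lam := by ring
          _ ≤ r * lam := mul_le_mul_of_nonneg_right hx' hlam.le
      exact e1.trans (e4.trans e5)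
    · -- upper bound
      calc (r : ℝ) * lam ≤ Hs * lam := mul_le_mul_of_nonneg_right hrH hlam.le
        _ ≤ (N : ℝ) ^ (-(ε / 2)) := hHsl
        _ ≤ (N : ℝ) ^ (-(ε / 4)) := hmono _ _ (by linarith)
        _ ≤ ((N - r : ℕ) : ℝ) ^ (-(ε / 4)) :=
            Real.rpow_le_rpow_of_nonpos (by linarith) hrN' (by linarith)
    · intro n hn
      rw [dk_diff]
      have hb : ∀ i ∈ range r, lam ≤ dk (j + 1) f (n + i) ∧ dk (j + 1) f (n + i) ≤ A * lam := by
        intro i hi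
        rw [mem_range] at hi
        exact hf (n + i) (by omega)
      constructor
      · have := card_nsmul_le_sum (range r) (fun i => dk (j + 1) f (n + i)) lam
          (fun i hi => (hb i hi).1)
        rwa [card_range, nsmul_eq_mul] at this
      · have := sum_le_card_nsmul (range r) (fun i => dk (j + 1) f (n + i)) (A * lam)
          (fun i hi => (hb i hi).2)
        rw [card_range, nsmul_eq_mul] at this
        linarith
  -- conclusion
  have hW := weyl_vdc (fun n => ee (f n)) N H hH1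
  have hS := sum_split (H - 1) (fun x => ‖corr (fun n => ee (f n)) N (x + 1)‖) N
    ((N : ℝ) ^ (1 - τ)) (Hs * (N : ℝ) ^ (-(ε / 4))) (hpos _).le hN0.le
    (mul_nonneg (by linarith) (hpos _).le) (fun x _ => hc0 _) hc1
  have hNτ : (N : ℝ) ^ (-τ) * N = (N : ℝ) ^ (1 - τ) := by
    nth_rewrite 2 [← Real.rpow_one (N : ℝ)]
    rw [hmul]; congr 1; ring
  have hS2 : ∑ x ∈ range (H - 1), ‖corr (fun n => ee (f n)) N (x + 1)‖ ≤
      3 * H * (N : ℝ) ^ (1 - τ) := by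
    have a1 : ((H - 1 : ℕ) : ℝ) ≤ H := by exact_mod_cast Nat.sub_le _ _
    have a2 : Hs * (N : ℝ) ^ (-(ε / 4)) ≤ 2 * H * (N : ℝ) ^ (-τ) := by
      have a3 : Hs ≤ 2 * H := by linarith
      exact mul_le_mul a3 (hmono _ _ (by linarith)) (hpos _).le (by positivity)
    calc ∑ x ∈ range (H - 1), ‖corr (fun n => ee (f n)) N (x + 1)‖
        ≤ ((H - 1 : ℕ) : ℝ) * (N : ℝ) ^ (1 - τ) + Hs * (N : ℝ) ^ (-(ε / 4)) * N := hS
      _ ≤ H * (N : ℝ) ^ (1 - τ) + (2 * H * (N : ℝ) ^ (-τ)) * N := by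
          gcongr
      _ = H * (N : ℝ) ^ (1 - τ) + 2 * H * ((N : ℝ) ^ (-τ) * N) := by ring
      _ = 3 * H * (N : ℝ) ^ (1 - τ) := by rw [hNτ]; ring
  have hNH : (N : ℝ) ≤ 2 * H * (N : ℝ) ^ (1 - τ) := by
    have a1 : (N : ℝ) ^ τ ≤ 2 * H := by
      refine (hmono _ _ (by linarith : τ ≤ ε / 2)).trans ?_
      linarith
    calc (N : ℝ) = (N : ℝ) ^ τ * (N : ℝ) ^ (1 - τ) := by
          rw [hmul]; ring_nf; rw [Real.rpow_one]
      _ ≤ 2 * H * (N : ℝ) ^ (1 - τ) := mul_le_mul_of_nonneg_right a1 (hpos _).le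
  have hH0 : (0 : ℝ) < H := by exact_mod_cast hH1
  have hfin : ‖∑ n ∈ range N, ee (f n)‖ ^ 2 ≤ 16 * (N : ℝ) ^ (2 - τ) := by
    have b1 : ‖∑ n ∈ range N, ee (f n)‖ ^ 2 * H ≤ (2 * N) * (8 * H * (N : ℝ) ^ (1 - τ)) := by
      refine hW.trans ?_
      have b2 : ((N + H : ℕ) : ℝ) ≤ 2 * N := by
        have : (H : ℝ) ≤ N := by exact_mod_cast hHN
        push_cast; linarith
      have b3 : ‖corr (fun n => ee (f n)) N 0‖ +
          2 * ∑ x ∈ range (H - 1), ‖corr (fun n => ee (f n)) N (x + 1)‖ ≤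
          8 * H * (N : ℝ) ^ (1 - τ) := by
        have := hc0 0
        linarith
      refine mul_le_mul b2 b3 ?_ (by positivity)
      exact add_nonneg (norm_nonneg _) (mul_nonneg (by norm_num)
        (sum_nonneg fun _ _ => norm_nonneg _))
    have b4 : (2 * N) * (8 * H * (N : ℝ) ^ (1 - τ)) = (16 * (N : ℝ) ^ (2 - τ)) * H := by
      have : (N : ℝ) ^ (2 - τ) = N * (N : ℝ) ^ (1 - τ) := by
        nth_rewrite 2 [← Real.rpow_one (N : ℝ)]
        rw [hmul]; congr 1; ring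
      rw [this]; ring
    rw [b4] at b1
    exact le_of_mul_le_mul_right b1 hH0
  have hfin2 : 16 * (N : ℝ) ^ (2 - τ) = (4 * (N : ℝ) ^ (1 - τ / 2)) ^ 2 := by
    rw [mul_pow, ← Real.rpow_natCast ((N : ℝ) ^ (1 - τ / 2)) 2, ← Real.rpow_mul hN0.le]
    norm_num
    congr 1
    ring
  rw [hfin2] at hfin
  have hfin3 := abs_le_of_sq_le_sq' hfin (by have := hpos (1 - τ / 2); positivity)
  refine hfin3.2.trans ?_
  calc 4 * (N : ℝ) ^ (1 - τ / 2) ≤ (N : ℝ) ^ (τ / 4) * (N : ℝ) ^ (1 - τ / 2) :=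
        mul_le_mul_of_nonneg_right (h2 N hNN2) (hpos _).le
    _ = (N : ℝ) ^ (1 - τ / 4) := by rw [hmul]; congr 1; ring

theorem wt (j : ℕ) (hj : 2 ≤ j) : WT j := by
  induction j, hj using Nat.le_induction with
  | base => exact wt_two
  | succ j hj ih => exact wt_succ hj ih

end Pool.Agent.Helper59.NX
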