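import Pool.Agent.Helper57.NX.Defs
import Pool.Agent.Helper59.NX.WTStep
import Pool.Agent.Helper59.NX.Deriv

/-!
# NX-8: the exponential sum estimate `ES0`
-/

set_option autoImplicit false

open Finset
open scoped BigOperators ComplexConjugate

namespace Pool.Agent.Helper59.NX

open Pool.Agent.Helper10.QRH (ee)
open Pool.Agent.Helper64.QRH (ee_add norm_ee)
open Pool.Agent.Helper67.KSZ (dk dk_succ conj_ee)

theorem exists_pow_ge' (B ε : ℝ) (hε : 0 < ε) : ∃ D0 : ℝ, 1 ≤ D0 ∧ ∀ D : ℝ, D0 ≤ D →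
    B ≤ D ^ ε := by
  have h := tendsto_rpow_atTop hε
  obtain ⟨D0, h0⟩ := Filter.eventually_atTop.mp (h.eventually_ge_atTop B)
  exact ⟨max D0 1, le_max_right _ _, fun D hD => h0 D ((le_max_left _ _).trans hD)⟩

theorem block_bound (h : ℕ → ℂ) (N : ℕ) (B : ℝ) (hh : ∀ n, ‖h n‖ ≤ 1) (q r : ℕ)
    (hB : ∀ b, b < q → ‖∑ n ∈ range N, h (b * N + n)‖ ≤ B) :
    ‖∑ n ∈ range (q * N + r), h n‖ ≤ q * B + r := by
  have h1 : ∀ q : ℕ, (∀ b, b < q → ‖∑ n ∈ range N, h (b * N + n)‖ ≤ B) →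
      ‖∑ n ∈ range (q * N), h n‖ ≤ q * B := by
    intro q
    induction q with
    | zero => intro _; simp
    | succ q ih =>
      intro hq
      rw [add_mul, one_mul, sum_range_add]
      refine (norm_add_le _ _).trans ?_
      have := ih fun b hb => hq b (by omega)
      have := hq q (by omega)
      push_cast
      linarith
  rw [sum_range_add]
  refine (norm_add_le _ _).trans (add_le_add (h1 q hB) ?_)
  refine (norm_sum_le _ _).trans ?_
  refine (sum_le_card_nsmul (range r) _ 1 fun x _ => hh _).trans ?_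
  rw [card_range, nsmul_eq_mul, mul_one]

theorem norm_sum_ee_sign (s : ℝ) (hs : s = 1 ∨ s = -1) (N : ℕ) (F : ℕ → ℝ) :
    ‖∑ n ∈ range N, ee (s * F n)‖ = ‖∑ n ∈ range N, ee (F n)‖ := by
  rcases hs with rfl | rfl
  · simp
  · rw [← RCLike.norm_conj, map_sum]
    congr 1
    apply sum_congr rfl
    intro n _
    rw [conj_ee]
    congr 1
    ring

/-- The function `∑ v_i ((x+ρ)/D)^γ_i + p(x)` and its derivatives. -/
noncomputable def GG {m : ℕ} (γ v : Fin m → ℝ) (D ρ : ℝ) (p : Polynomial ℝ) (s : ℝ) (j : ℕ)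
    (x : ℝ) : ℝ :=
  s * ((D⁻¹) ^ j * Phi γ v j ((x + ρ) / D) + (Polynomial.derivative^[j] p).eval x)

theorem GG_hasDerivAt {m : ℕ} (γ v : Fin m → ℝ) (D ρ : ℝ) (hD : 0 < D) (p : Polynomial ℝ) (s : ℝ)
    (j : ℕ) {x : ℝ} (hx : 0 < x + ρ) :
    HasDerivAt (GG γ v D ρ p s j) (GG γ v D ρ p s (j + 1) x) x := by
  unfold GG
  have h1 : HasDerivAt (fun x : ℝ => (x + ρ) / D) (1 / D) x :=
    ((hasDerivAt_id x).add_const ρ).div_const D
  have h2 : HasDerivAt (fun x : ℝ => Phi γ v j ((x + ρ) / D))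
      (Phi γ v (j + 1) ((x + ρ) / D) * (1 / D)) x :=
    HasDerivAt.comp (h₂ := Phi γ v j) (h := fun x : ℝ => (x + ρ) / D) x
      (Phi_hasDerivAt γ v j (div_pos hx hD)) h1
  have h3 : HasDerivAt (fun x : ℝ => (Polynomial.derivative^[j] p).eval x)
      ((Polynomial.derivative^[j + 1] p).eval x) x := by
    rw [Function.iterate_succ_apply']
    exact Polynomial.hasDerivAt _ x
  have h4 := ((h2.const_mul ((D⁻¹) ^ j)).add h3).const_mul s
  have e : s * ((D⁻¹) ^ (j + 1) * Phi γ v (j + 1) ((x + ρ) / D) +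
      (Polynomial.derivative^[j + 1] p).eval x) =
      s * ((D⁻¹) ^ j * (Phi γ v (j + 1) ((x + ρ) / D) * (1 / D)) +
      (Polynomial.derivative^[j + 1] p).eval x) := by
    rw [pow_succ]
    ring
  rw [e]
  exact h4

/-- One piece. -/
theorem piece {m : ℕ} (γ v : Fin m → ℝ) (K d : ℕ) (L c C : ℝ) (hc : 0 < c) (hC : 1 ≤ C)
    (hPhi : ∀ t : ℝ, 1 ≤ t → t ≤ L → (∃ l : Fin m, c * ‖v‖ ≤ |Phi γ v (K + l) t|) ∧
      ∀ j ≤ K + m, |Phi γ v j t| ≤ C * ‖v‖)
    (hKd : d < K) (D ρ : ℝ) (hD : 1 ≤ D) (hρ0 : 0 ≤ ρ) (p : Polynomial ℝ)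
    (hp : p.natDegree ≤ d) (hv : 0 < ‖v‖) (σ ε1 : ℝ) (N : ℕ)
    (hWT : ∀ l : Fin m, ∀ lam : ℝ, (N : ℝ) ^ (-((K + l : ℕ) : ℝ) + ε1) ≤ lam →
      lam ≤ (N : ℝ) ^ (-ε1) → ∀ f : ℕ → ℝ,
      (∀ n, n + (K + l) ≤ N → lam ≤ dk (K + l) f n ∧ dk (K + l) f n ≤ (2 * C / c) * lam) →
      ‖∑ n ∈ range N, ee (f n)‖ ≤ (N : ℝ) ^ (1 - σ))
    (hlam : ∀ l : Fin m, (N : ℝ) ^ (-((K + l : ℕ) : ℝ) + ε1) ≤ (D⁻¹) ^ (K + l : ℕ) * (c * ‖v‖ / 2) ∧
      (D⁻¹) ^ (K + l : ℕ) * (c * ‖v‖ / 2) ≤ (N : ℝ) ^ (-ε1))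
    (hND : (N : ℝ) / D ≤ c / (2 * C)) (k0 : ℕ) (hk0 : D ≤ k0) (hkN : (k0 : ℝ) + N + ρ ≤ L * D) :
    ‖∑ n ∈ range N, ee (∑ i, v i * ((((k0 + n : ℕ) : ℝ) + ρ) / D) ^ (γ i) +
      p.eval ((k0 + n : ℕ) : ℝ))‖ ≤ (N : ℝ) ^ (1 - σ) := by
  have hD0 : 0 < D := by linarith
  have hC0 : 0 < C := by linarith
  set t0 : ℝ := ((k0 : ℝ) + ρ) / D with ht0
  have ht01 : 1 ≤ t0 := by
    rw [ht0, le_div_iff₀ hD0]; linarith
  have hN0 : (0 : ℝ) ≤ N := Nat.cast_nonneg N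
  have ht0L : t0 + N / D ≤ L := by
    rw [ht0, ← add_div, div_le_iff₀ hD0]; linarith
  have hND0 : 0 ≤ (N : ℝ) / D := by positivity
  obtain ⟨l, hl⟩ := (hPhi t0 ht01 (by linarith)).1
  set j : ℕ := K + l with hj
  -- the sign
  obtain ⟨s, hs, hs'⟩ : ∃ s : ℝ, (s = 1 ∨ s = -1) ∧ s * Phi γ v j t0 = |Phi γ v j t0| := by
    rcases le_total 0 (Phi γ v j t0) with h | h
    · exact ⟨1, Or.inl rfl, by rw [one_mul, abs_of_nonneg h]⟩
    · exact ⟨-1, Or.inr rfl, by rw [abs_of_nonpos h]; ring⟩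
  have habs : |s| = 1 := by rcases hs with rfl | rfl <;> simp
  -- the size on the piece
  have hsize : ∀ t, t0 ≤ t → t ≤ t0 + N / D →
      c * ‖v‖ / 2 ≤ s * Phi γ v j t ∧ s * Phi γ v j t ≤ C * ‖v‖ := by
    intro t h1 h2
    constructor
    · have h3 : |Phi γ v j t - Phi γ v j t0| ≤ C * ‖v‖ * (t - t0) := by
        have h4 := Convex.norm_image_sub_le_of_norm_hasDerivWithin_le (𝕜 := ℝ)
          (f := Phi γ v j) (f' := Phi γ v (j + 1)) (s := Set.Icc t0 (t0 + N / D))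
          (C := C * ‖v‖) (x := t0) (y := t)
          (fun x hx => (Phi_hasDerivAt γ v j (by linarith [hx.1])).hasDerivWithinAt)
          (fun x hx => by
            rw [Real.norm_eq_abs]
            exact (hPhi x (by linarith [hx.1]) (by linarith [hx.2])).2 (j + 1)
              (by have := l.2; omega))
          (convex_Icc _ _) ⟨le_rfl, by linarith⟩ ⟨h1, h2⟩
        rw [Real.norm_eq_abs, Real.norm_eq_abs, abs_of_nonneg (by linarith : (0 : ℝ) ≤ t - t0)] at h4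
        exact h4
      have h5 : C * ‖v‖ * (t - t0) ≤ c * ‖v‖ / 2 := by
        calc C * ‖v‖ * (t - t0) ≤ C * ‖v‖ * (c / (2 * C)) := by
              have : t - t0 ≤ c / (2 * C) := by linarith
              gcongr
          _ = c * ‖v‖ / 2 := by field_simp
      have h6 : |s * Phi γ v j t - s * Phi γ v j t0| ≤ c * ‖v‖ / 2 := by
        rw [← mul_sub, abs_mul, habs, one_mul]
        exact h3.trans h5
      have h7 := (abs_le.mp h6).1
      rw [hs'] at h7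
      linarith
    · refine (le_abs_self _).trans ?_
      rw [abs_mul, habs, one_mul]
      exact (hPhi t (by linarith) (by linarith)).2 j (by have := l.2; omega)
  have key := hWT l ((D⁻¹) ^ (K + l : ℕ) * (c * ‖v‖ / 2)) (hlam l).1 (hlam l).2
    (fun n => GG γ v D ρ p s 0 ((k0 : ℝ) + n)) ?_
  · have e : ∀ n : ℕ, GG γ v D ρ p s 0 ((k0 : ℝ) + n) =
        s * (∑ i, v i * ((((k0 + n : ℕ) : ℝ) + ρ) / D) ^ (γ i) + p.eval ((k0 + n : ℕ) : ℝ)) := by
      intro n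
      unfold GG
      rw [pow_zero, one_mul, Phi_zero]
      push_cast
      rfl
    simp only [e] at key
    rw [norm_sum_ee_sign s hs N (fun n => ∑ i, v i * ((((k0 + n : ℕ) : ℝ) + ρ) / D) ^ (γ i) +
      p.eval ((k0 + n : ℕ) : ℝ))] at key
    exact key
  · intro n hn
    have hn' : (n : ℝ) + ((K + l : ℕ) : ℝ) ≤ N := by exact_mod_cast hn
    rw [dk_eq_dr]
    refine dr_mem (K + l) (GG γ v D ρ p s) _ _ ((k0 : ℝ) + n) ?_ ?_
    · intro i y h1 _
      refine GG_hasDerivAt γ v D ρ hD0 p s i ?_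
      have : (0 : ℝ) ≤ n := Nat.cast_nonneg n
      linarith
    · intro y h1 h2
      have hn0 : (0 : ℝ) ≤ n := Nat.cast_nonneg n
      have h3 := hsize ((y + ρ) / D)
        (by rw [ht0]; exact div_le_div_of_nonneg_right (by linarith) hD0.le)
        (by rw [ht0, ← add_div]; exact div_le_div_of_nonneg_right (by linarith) hD0.le)
      have h4 : (Polynomial.derivative^[K + l] p) = 0 :=
        Polynomial.iterate_derivative_eq_zero (by omega)
      have h5 : GG γ v D ρ p s (K + l) y = (D⁻¹) ^ (K + l : ℕ) * (s * Phi γ v j ((y + ρ) / D)) := by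
        unfold GG
        rw [h4, Polynomial.eval_zero, add_zero, ← hj]
        ring
      have hp0 : 0 < (D⁻¹) ^ (K + l : ℕ) := by positivity
      rw [h5]
      constructor
      · exact mul_le_mul_of_nonneg_left h3.1 hp0.le
      · calc (D⁻¹) ^ (K + l : ℕ) * (s * Phi γ v j ((y + ρ) / D))
            ≤ (D⁻¹) ^ (K + l : ℕ) * (C * ‖v‖) := mul_le_mul_of_nonneg_left h3.2 hp0.le
          _ = 2 * C / c * ((D⁻¹) ^ (K + l : ℕ) * (c * ‖v‖ / 2)) := by field_simp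

/-- The parameters. -/
theorem params (K m : ℕ) (hK : 2 ≤ K) (ε a c C : ℝ) (hε : 0 < ε) (haK : a + 2 ≤ K)
    (hc : 0 < c) (hc1 : c ≤ 1) (hC : 1 ≤ C) (N1 : ℕ) :
    ∃ x1 : ℝ, 0 < x1 ∧ x1 ≤ 1 / 8 ∧ ∃ D0 : ℝ, 1 ≤ D0 ∧ ∀ D : ℝ, D0 ≤ D →
      ∃ N : ℕ, N1 ≤ N ∧ 1 ≤ N ∧ (N : ℝ) ≤ D ^ (1 - x1) ∧ D ^ (1 / 2 : ℝ) ≤ N ∧
      (N : ℝ) / D ≤ c / (2 * C) ∧
      ∀ V : ℝ, D ^ ε ≤ V → V ≤ D ^ a → ∀ l : ℕ, l < m →
        (N : ℝ) ^ (-((K + l : ℕ) : ℝ) + min ε 1 / 4) ≤ (D⁻¹) ^ (K + l : ℕ) * (c * V / 2) ∧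
        (D⁻¹) ^ (K + l : ℕ) * (c * V / 2) ≤ (N : ℝ) ^ (-(min ε 1 / 4)) := by
  set ε1 : ℝ := min ε 1 / 4 with hε1
  have hε10 : 0 < ε1 := by rw [hε1]; have := lt_min hε one_pos; positivity
  have hε14 : ε1 ≤ 1 / 4 := by rw [hε1]; linarith [min_le_right ε 1]
  have hε1ε : ε1 ≤ ε / 4 := by rw [hε1]; linarith [min_le_left ε 1]
  have hKm : (2 : ℝ) ≤ ((K + m : ℕ) : ℝ) := by exact_mod_cast (by omega : 2 ≤ K + m)
  set x1 : ℝ := ε1 / ((K + m : ℕ) : ℝ) with hx1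
  have hx10 : 0 < x1 := by rw [hx1]; positivity
  have hx18 : x1 ≤ 1 / 8 := by
    rw [hx1, div_le_iff₀ (by linarith)]
    linarith
  have hx1K : x1 * ((K + m : ℕ) : ℝ) = ε1 := by rw [hx1]; field_simp
  obtain ⟨D1, hD1, h1⟩ := exists_pow_ge' (2 * C / c) x1 hx10
  obtain ⟨D2, hD2, h2⟩ := exists_pow_ge' 2 (1 / 4) (by norm_num)
  obtain ⟨D3, hD3, h3⟩ := exists_pow_ge' N1 (1 / 2) (by norm_num)
  obtain ⟨D4, hD4, h4⟩ := exists_pow_ge' (2 ^ (K + m + 1) / c) (ε / 2) (by positivity)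
  refine ⟨x1, hx10, hx18, max (max D1 D2) (max D3 D4), hD1.trans ((le_max_left _ _).trans
    (le_max_left _ _)), fun D hD => ?_⟩
  have hDD1 : D1 ≤ D := ((le_max_left _ _).trans (le_max_left _ _)).trans hD
  have hDD2 : D2 ≤ D := ((le_max_right _ _).trans (le_max_left _ _)).trans hD
  have hDD3 : D3 ≤ D := ((le_max_left _ _).trans (le_max_right _ _)).trans hD
  have hDD4 : D4 ≤ D := ((le_max_right _ _).trans (le_max_right _ _)).trans hD
  have hDone : 1 ≤ D := hD1.trans hDD1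
  have hDpos : 0 < D := by linarith
  have hpos : ∀ x : ℝ, 0 < D ^ x := fun x => Real.rpow_pos_of_pos hDpos x
  have hmono : ∀ x y : ℝ, x ≤ y → D ^ x ≤ D ^ y := fun x y hxy =>
    Real.rpow_le_rpow_of_exponent_le hDone hxy
  have hmul : ∀ x y : ℝ, D ^ x * D ^ y = D ^ (x + y) := fun x y => (Real.rpow_add hDpos x y).symm
  have hX1 : 1 ≤ D ^ (1 - x1) := by
    have := hmono 0 (1 - x1) (by linarith)
    rwa [Real.rpow_zero] at this
  set N : ℕ := ⌊D ^ (1 - x1)⌋₊ with hN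
  have hN1 : (N : ℝ) ≤ D ^ (1 - x1) := Nat.floor_le (by linarith)
  have hNone : 1 ≤ N := Nat.le_floor (by push_cast; exact hX1)
  have hNone' : (1 : ℝ) ≤ N := by exact_mod_cast hNone
  have hN2 : D ^ (1 - x1) / 2 ≤ N := by
    have := Nat.lt_floor_add_one (D ^ (1 - x1))
    rw [← hN] at this
    linarith
  have hNhalf : D ^ (1 / 2 : ℝ) ≤ N := by
    refine le_trans ?_ hN2
    rw [le_div_iff₀ (by norm_num : (0 : ℝ) < 2)]
    calc D ^ (1 / 2 : ℝ) * 2 ≤ D ^ (1 / 2 : ℝ) * D ^ (1 / 4 : ℝ) :=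
          mul_le_mul_of_nonneg_left (h2 D hDD2) (hpos _).le
      _ = D ^ (3 / 4 : ℝ) := by rw [hmul]; norm_num
      _ ≤ D ^ (1 - x1) := hmono _ _ (by linarith)
  have hNpos : (0 : ℝ) < N := by linarith
  refine ⟨N, ?_, hNone, hN1, hNhalf, ?_, ?_⟩
  · have := (h3 D hDD3).trans hNhalf
    exact_mod_cast this
  · have hC0 : 0 < C := by linarith
    rw [div_le_iff₀ hDpos]
    calc (N : ℝ) ≤ D ^ (1 - x1) := hN1
      _ = D ^ (-x1) * D := by
          nth_rewrite 3 [← Real.rpow_one D]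
          rw [hmul]; congr 1; ring
      _ ≤ c / (2 * C) * D := by
          refine mul_le_mul_of_nonneg_right ?_ hDpos.le
          rw [Real.rpow_neg hDpos.le, show c / (2 * C) = (2 * C / c)⁻¹ by rw [inv_div]]
          exact inv_anti₀ (by positivity) (h1 D hDD1)
  · intro V hV1 hV2 l hl
    have hj : ((K + l : ℕ) : ℝ) ≤ ((K + m : ℕ) : ℝ) := by exact_mod_cast (by omega : K + l ≤ K + m)
    have hjK : (K : ℝ) ≤ ((K + l : ℕ) : ℝ) := by exact_mod_cast (by omega : K ≤ K + l)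
    have hj2 : (2 : ℝ) ≤ ((K + l : ℕ) : ℝ) := by exact_mod_cast (by omega : 2 ≤ K + l)
    have e0 : (D⁻¹) ^ (K + l : ℕ) = D ^ (-((K + l : ℕ) : ℝ)) := by
      rw [Real.rpow_neg hDpos.le, Real.rpow_natCast, inv_pow]
    rw [e0]
    set J : ℝ := ((K + l : ℕ) : ℝ) with hJ
    constructor
    · have f1 : (N : ℝ) ^ (-J + ε1) ≤ (D ^ (1 - x1) / 2) ^ (-J + ε1) :=
        Real.rpow_le_rpow_of_nonpos (by have := hpos (1 - x1); positivity) hN2 (by linarith)
      have f2 : (D ^ (1 - x1) / 2) ^ (-J + ε1) =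
          D ^ ((1 - x1) * (-J + ε1)) * (2 : ℝ) ^ (J - ε1) := by
        rw [Real.div_rpow (hpos _).le (by norm_num), ← Real.rpow_mul hDpos.le, div_eq_mul_inv,
          ← Real.rpow_neg (by norm_num)]
        congr 2
        ring
      have f3 : D ^ ((1 - x1) * (-J + ε1)) ≤ D ^ (-J + ε / 2) := by
        apply hmono
        have : x1 * J ≤ ε1 := by
          rw [← hx1K]; exact mul_le_mul_of_nonneg_left hj hx10.le
        have h5 : 0 ≤ x1 * ε1 := by positivity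
        have h6 : (1 - x1) * (-J + ε1) = -J + ε1 + x1 * J - x1 * ε1 := by ring
        rw [h6]
        linarith
      have f4 : (2 : ℝ) ^ (J - ε1) ≤ 2 ^ (K + m) := by
        rw [← Real.rpow_natCast]
        exact Real.rpow_le_rpow_of_exponent_le (by norm_num) (by linarith)
      have f5 : (2 : ℝ) ^ (K + m) ≤ D ^ (ε / 2) * (c / 2) := by
        have := h4 D hDD4
        rw [div_le_iff₀ hc, pow_succ] at this
        linarith
      calc (N : ℝ) ^ (-J + ε1) ≤ D ^ ((1 - x1) * (-J + ε1)) * (2 : ℝ) ^ (J - ε1) := by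
            rw [← f2]; exact f1
        _ ≤ D ^ (-J + ε / 2) * (D ^ (ε / 2) * (c / 2)) := by
            refine mul_le_mul f3 (f4.trans f5) (by positivity) (hpos _).le
        _ = D ^ (-J) * (c * D ^ ε / 2) := by
            rw [Real.rpow_add hDpos, show D ^ ε = D ^ (ε / 2) * D ^ (ε / 2) by
              rw [hmul]; congr 1; ring]
            ring
        _ ≤ D ^ (-J) * (c * V / 2) := by
            have := hpos (-J)
            gcongr
    · have g1 : D ^ (-J) * (c * V / 2) ≤ D ^ (-J) * D ^ a := by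
        refine mul_le_mul_of_nonneg_left ?_ (hpos _).le
        have : 0 < V := lt_of_lt_of_le (hpos _) hV1
        nlinarith
      refine g1.trans ?_
      rw [hmul]
      calc D ^ (-J + a) ≤ D ^ (-(1 : ℝ)) := hmono _ _ (by linarith)
        _ ≤ (N : ℝ) ^ (-(1 : ℝ)) := by
            refine Real.rpow_le_rpow_of_nonpos hNpos ?_ (by norm_num)
            refine hN1.trans ?_
            have := hmono (1 - x1) 1 (by linarith)
            rwa [Real.rpow_one] at this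
        _ ≤ (N : ℝ) ^ (-ε1) := Real.rpow_le_rpow_of_exponent_le hNone' (by linarith)

end Pool.Agent.Helper59.NX

namespace Pool.Agent.Helper57.NX

open Pool.Agent.Helper59.NX
open Pool.Agent.Helper10.QRH (ee)
open Pool.Agent.Helper64.QRH (norm_ee)
open Pool.Agent.Helper67.KSZ (dk)

theorem es0 : ES0 := by
  intro m d γ hinj hγ Λ a ε hΛ hε
  rcases Nat.eq_zero_or_pos m with hm | hm
  · subst hm
    refine ⟨1, one_pos, 1, one_pos, 0, fun D _ ρ _ _ v _ ⟨i, _⟩ => i.elim0⟩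
  set K : ℕ := max (d + 1) (⌈a⌉₊ + 2) with hK
  have hK2 : 2 ≤ K := by have := le_max_right (d + 1) (⌈a⌉₊ + 2); omega
  have hKd : d < K := by have := le_max_left (d + 1) (⌈a⌉₊ + 2); omega
  have haK : a + 2 ≤ K := by
    have h1 : ((⌈a⌉₊ + 2 : ℕ) : ℝ) ≤ K := by exact_mod_cast le_max_right (d + 1) (⌈a⌉₊ + 2)
    push_cast at h1
    linarith [Nat.le_ceil a]
  obtain ⟨c, C, hc, hc1, hC, hPhi⟩ := Phi_bounds hm γ hinj hγ K (Λ + 1) (by linarith)
  have hε1 : 0 < min ε 1 / 4 := by have := lt_min hε one_pos; positivity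
  have hA : 1 ≤ 2 * C / c := by
    rw [le_div_iff₀ hc]; linarith
  choose σf hσf Nf hNf using fun l : Fin m => wt (K + l) (by omega) (2 * C / c)
    (min ε 1 / 4) hA hε1
  have hne : (univ : Finset (Fin m)).Nonempty := ⟨⟨0, hm⟩, mem_univ _⟩
  set σ1 : ℝ := min 1 (univ.inf' hne σf) with hσ1
  have hσ10 : 0 < σ1 := by
    refine lt_min one_pos ?_
    rw [lt_inf'_iff]
    exact fun i _ => hσf i
  have hσ1l : ∀ l, σ1 ≤ σf l := fun l => (min_le_right _ _).trans (inf'_le _ (mem_univ l))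
  set N1 : ℕ := univ.sup Nf with hN1
  obtain ⟨x1, hx10, hx18, D0, hD0, hpar⟩ := params K m hK2 ε a c C hε haK hc hc1 hC N1
  set σ : ℝ := min (x1 / 4) (σ1 / 4) with hσ
  have hσ0 : 0 < σ := lt_min (by positivity) (by positivity)
  have hσx : σ ≤ x1 / 4 := min_le_left _ _
  have hσσ : σ ≤ σ1 / 4 := min_le_right _ _
  obtain ⟨D1, hD1, h1⟩ := exists_pow_ge' 2 σ hσ0
  refine ⟨x1 / 2, by positivity, σ, hσ0, max D0 D1, fun D hD ρ hρ0 hρ1 v hv1 hv2 p hp u T hu huT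
    hT => ?_⟩
  have hDD0 : D0 ≤ D := (le_max_left _ _).trans hD
  have hDD1 : D1 ≤ D := (le_max_right _ _).trans hD
  have hDone : 1 ≤ D := hD0.trans hDD0
  have hDpos : 0 < D := by linarith
  have hpos : ∀ x : ℝ, 0 < D ^ x := fun x => Real.rpow_pos_of_pos hDpos x
  have hmono : ∀ x y : ℝ, x ≤ y → D ^ x ≤ D ^ y := fun x y hxy =>
    Real.rpow_le_rpow_of_exponent_le hDone hxy
  have hmul : ∀ x y : ℝ, D ^ x * D ^ y = D ^ (x + y) := fun x y => (Real.rpow_add hDpos x y).symm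
  obtain ⟨N, hNN1, hNone, hNle, hNhalf, hND, hlam⟩ := hpar D hDD0
  have hNpos : (0 : ℝ) < N := by exact_mod_cast hNone
  have hNone' : (1 : ℝ) ≤ N := by exact_mod_cast hNone
  -- the size of `v`
  have hV1 : D ^ ε ≤ ‖v‖ := by
    obtain ⟨i, hi⟩ := hv2
    exact hi.trans (norm_le_pi_norm v i)
  have hV2 : ‖v‖ ≤ D ^ a := by
    rw [pi_norm_le_iff_of_nonneg (hpos _).le]
    exact fun i => hv1 i
  have hVpos : 0 < ‖v‖ := lt_of_lt_of_le (hpos _) hV1
  -- the function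
  set g : ℕ → ℂ := fun n => ee (∑ i, v i * ((((u + n : ℕ) : ℝ) + ρ) / D) ^ (γ i) +
    p.eval ((u + n : ℕ) : ℝ)) with hg
  have hTpos : (0 : ℝ) < T := lt_of_lt_of_le (hpos _) hT
  have e1 : 𝔼 k ∈ Ico u (u + T), e (∑ i, v i * (((k : ℝ) + ρ) / D) ^ (γ i) + p.eval (k : ℝ)) =
      (∑ n ∈ range T, g n) / T := by
    rw [expect_eq_sum_div_card, Nat.card_Ico, add_tsub_cancel_left, sum_Ico_eq_sum_range,
      add_tsub_cancel_left]
    rfl
  rw [e1, norm_div, Complex.norm_natCast, div_le_iff₀ hTpos]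
  set q : ℕ := T / N with hq
  set r : ℕ := T % N with hr
  have hTqr : q * N + r = T := by rw [hq, hr, mul_comm]; exact Nat.div_add_mod T N
  have hrN : r < N := Nat.mod_lt _ hNone
  have hblock := block_bound g N ((N : ℝ) ^ (1 - σ1)) (fun n => (norm_ee _).le) q r ?_
  · rw [hTqr] at hblock
    refine hblock.trans ?_
    -- final estimate
    have hqN : (q : ℝ) * N ≤ T := by
      have : q * N ≤ T := by omega
      exact_mod_cast this
    have hr' : (r : ℝ) ≤ N := by exact_mod_cast hrN.le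
    have f1 : (N : ℝ) ^ (1 - σ1) = N * (N : ℝ) ^ (-σ1) := by
      rw [sub_eq_add_neg, Real.rpow_add hNpos, Real.rpow_one]
    have f2 : (N : ℝ) ^ (-σ1) ≤ D ^ (-(2 * σ)) := by
      calc (N : ℝ) ^ (-σ1) ≤ (D ^ (1 / 2 : ℝ)) ^ (-σ1) :=
            Real.rpow_le_rpow_of_nonpos (hpos _) hNhalf (by linarith)
        _ = D ^ (1 / 2 * -σ1) := by rw [← Real.rpow_mul hDpos.le]
        _ ≤ D ^ (-(2 * σ)) := hmono _ _ (by linarith)
    have f3 : (N : ℝ) ≤ T * D ^ (-(2 * σ)) := by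
      calc (N : ℝ) ≤ D ^ (1 - x1) := hNle
        _ = D ^ (1 - x1 / 2) * D ^ (-(x1 / 2)) := by rw [hmul]; congr 1; ring
        _ ≤ T * D ^ (-(2 * σ)) := by
            refine mul_le_mul hT (hmono _ _ (by linarith)) (hpos _).le hTpos.le
    have f4 : (q : ℝ) * (N : ℝ) ^ (1 - σ1) ≤ T * D ^ (-(2 * σ)) := by
      rw [f1, ← mul_assoc]
      exact mul_le_mul hqN f2 (Real.rpow_pos_of_pos hNpos _).le hTpos.le
    have f5 : D ^ (-σ) = D ^ σ * D ^ (-(2 * σ)) := by rw [hmul]; congr 1; ring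
    calc (q : ℝ) * (N : ℝ) ^ (1 - σ1) + r ≤ T * D ^ (-(2 * σ)) + T * D ^ (-(2 * σ)) := by
          linarith
      _ = 2 * (T * D ^ (-(2 * σ))) := by ring
      _ ≤ D ^ σ * (T * D ^ (-(2 * σ))) := by
          refine mul_le_mul_of_nonneg_right (h1 D hDD1) ?_
          have := hpos (-(2 * σ))
          positivity
      _ = D ^ (-σ) * T := by rw [f5]; ring
  · intro b hb
    have hbN : b * N + N ≤ T := by
      have : (b + 1) * N ≤ q * N := Nat.mul_le_mul_right N hb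
      have : (b + 1) * N = b * N + N := by ring
      omega
    have hk0 : D ≤ ((u + b * N : ℕ) : ℝ) := by
      push_cast
      have : (0 : ℝ) ≤ b * N := by positivity
      linarith
    have hkN : ((u + b * N : ℕ) : ℝ) + N + ρ ≤ (Λ + 1) * D := by
      have h5 : ((b * N + N : ℕ) : ℝ) ≤ T := by exact_mod_cast hbN
      push_cast at h5 ⊢
      linarith
    have := piece γ v K d (Λ + 1) c C hc hC (fun t h1 h2 => hPhi v t h1 h2) hKd D ρ hDone hρ0 p hp
      hVpos σ1 (min ε 1 / 4) N ?_ (fun l => hlam ‖v‖ hV1 hV2 l l.2) hND (u + b * N) hk0 hkN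
    · have e2 : ∀ n : ℕ, g (b * N + n) =
          ee (∑ i, v i * ((((u + b * N + n : ℕ) : ℝ) + ρ) / D) ^ (γ i) +
            p.eval ((u + b * N + n : ℕ) : ℝ)) := by
        intro n
        rw [hg]
        simp only [add_assoc]
      simp only [e2]
      exact this
    · intro l lam hl1 hl2 f hf
      refine (hNf l N ((le_sup (mem_univ l)).trans hNN1) lam hl1 hl2 f hf).trans ?_
      exact Real.rpow_le_rpow_of_exponent_le hNone' (by linarith [hσ1l l])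

end Pool.Agent.Helper57.NX
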