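import Pool.Agent.Helper67.KSZ.KTest

/-!
# NX-8, part A: a weak `j`-th difference test, valid in the whole range of sizes
-/

set_option autoImplicit false

open Finset

namespace Pool.Agent.Helper59.NX

open Pool.Agent.Helper10.QRH (ee)
open Pool.Agent.Helper64.QRH (ee_add norm_ee)
open Pool.Agent.Helper67.KSZ

/-- The weak difference test. -/
def WT (j : ℕ) : Prop := ∀ A ε : ℝ, 1 ≤ A → 0 < ε → ∃ σ : ℝ, 0 < σ ∧ ∃ N0 : ℕ, ∀ N : ℕ, N0 ≤ N →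
  ∀ lam : ℝ, (N : ℝ) ^ (-(j : ℝ) + ε) ≤ lam → lam ≤ (N : ℝ) ^ (-ε) → ∀ f : ℕ → ℝ,
  (∀ n, n + j ≤ N → lam ≤ dk j f n ∧ dk j f n ≤ A * lam) →
  ‖∑ n ∈ range N, ee (f n)‖ ≤ (N : ℝ) ^ (1 - σ)

/-- Powers of large numbers beat constants. -/
theorem exists_pow_ge (B ε : ℝ) (hε : 0 < ε) : ∃ N0 : ℕ, 1 ≤ N0 ∧ ∀ N : ℕ, N0 ≤ N →
    B ≤ (N : ℝ) ^ ε := by
  have h := (tendsto_rpow_atTop hε).comp tendsto_natCast_atTop_atTop (α := ℕ)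
  obtain ⟨N0, h0⟩ := Filter.eventually_atTop.mp (h.eventually_ge_atTop B)
  exact ⟨max N0 1, le_max_right _ _, fun N hN => h0 N ((le_max_left _ _).trans hN)⟩

theorem wt_two : WT 2 := by
  intro A ε hA hε
  obtain ⟨N0, h1, h0⟩ := exists_pow_ge (20 * A) (ε / 4) (by positivity)
  refine ⟨ε / 4, by positivity, N0, fun N hN lam hl hu f hf => ?_⟩
  have hN1 : (1 : ℝ) ≤ N := by exact_mod_cast h1.trans hN
  have hN0 : (0 : ℝ) < N := by linarith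
  have hlam : 0 < lam := lt_of_lt_of_le (Real.rpow_pos_of_pos hN0 _) hl
  have h2 := ktest_two N f lam A hlam hA hf
  refine h2.trans ?_
  have e1 : lam ^ ((1 : ℝ) / 2) ≤ (N : ℝ) ^ (-(ε / 2)) := by
    refine (Real.rpow_le_rpow hlam.le hu (by norm_num)).trans ?_
    rw [← Real.rpow_mul hN0.le]
    exact le_of_eq (by ring_nf)
  have e2 : lam ^ (-((1 : ℝ) / 2)) ≤ (N : ℝ) ^ (1 - ε / 2) := by
    refine (Real.rpow_le_rpow_of_nonpos (Real.rpow_pos_of_pos hN0 _) hl (by norm_num)).trans ?_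
    rw [← Real.rpow_mul hN0.le]
    exact le_of_eq (by push_cast; ring_nf)
  have e3 : (N : ℝ) ^ ((1 : ℝ) - 1) = 1 := by rw [sub_self, Real.rpow_zero]
  rw [e3, one_mul]
  have e4 : (N : ℝ) * (N : ℝ) ^ (-(ε / 2)) = (N : ℝ) ^ (1 - ε / 2) := by
    rw [sub_eq_add_neg, Real.rpow_add hN0, Real.rpow_one]
  have e5 : (N : ℝ) * lam ^ ((1 : ℝ) / 2) ≤ (N : ℝ) ^ (1 - ε / 2) := by
    rw [← e4]; exact mul_le_mul_of_nonneg_left e1 hN0.le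
  calc 10 * A * ((N : ℝ) * lam ^ ((1 : ℝ) / 2) + lam ^ (-((1 : ℝ) / 2)))
      ≤ 10 * A * ((N : ℝ) ^ (1 - ε / 2) + (N : ℝ) ^ (1 - ε / 2)) := by gcongr
    _ = 20 * A * (N : ℝ) ^ (1 - ε / 2) := by ring
    _ ≤ (N : ℝ) ^ (ε / 4) * (N : ℝ) ^ (1 - ε / 2) := by
        exact mul_le_mul_of_nonneg_right (h0 N hN) (Real.rpow_nonneg hN0.le _)
    _ = (N : ℝ) ^ (1 - ε / 4) := by
        rw [← Real.rpow_add hN0]; congr 1; ring

/-- Monotonicity in `ε`. -/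
theorem wt_of_small {j : ℕ} (h : ∀ A ε : ℝ, 1 ≤ A → 0 < ε → ε ≤ 1 → ∃ σ : ℝ, 0 < σ ∧ ∃ N0 : ℕ,
    ∀ N : ℕ, N0 ≤ N →
    ∀ lam : ℝ, (N : ℝ) ^ (-(j : ℝ) + ε) ≤ lam → lam ≤ (N : ℝ) ^ (-ε) → ∀ f : ℕ → ℝ,
    (∀ n, n + j ≤ N → lam ≤ dk j f n ∧ dk j f n ≤ A * lam) →
    ‖∑ n ∈ range N, ee (f n)‖ ≤ (N : ℝ) ^ (1 - σ)) : WT j := by
  intro A ε hA hε
  obtain ⟨σ, hσ, N0, h0⟩ := h A (min ε 1) hA (lt_min hε one_pos) (min_le_right _ _)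
  refine ⟨σ, hσ, max N0 1, fun N hN lam hl hu f hf => ?_⟩
  have hN1 : (1 : ℝ) ≤ N := by exact_mod_cast (le_max_right _ _).trans hN
  refine h0 N ((le_max_left _ _).trans hN) lam (le_trans ?_ hl) (hu.trans ?_) f hf
  · exact Real.rpow_le_rpow_of_exponent_le hN1 (by linarith [min_le_left ε 1])
  · exact Real.rpow_le_rpow_of_exponent_le hN1 (by linarith [min_le_left ε 1])

end Pool.Agent.Helper59.NX
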